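import Pool.Agent.Q150.RichC

/-!
# Rich lines in complex affine space

The conjectured bound for the number of `r`-rich lines of a finite set `V ⊆ ℂ^d`, in terms of
`s_l(V) = max |V ∩ F|` over `l`-flats `F`, fails in every dimension `d ≥ 9`.
-/

namespace Pool.Agent.Results.MP_0eaff0_co.RichLinesFail

open Q150.Rich

/-- For every `d ≥ 9` there is no constant `C` for which
`|L_r(V)| ≤ C (n² r^{-d-1} + ∑_{l=2}^{d-1} n s_l r^{-l-1} + n r^{-1})` holds for all finite
`V ⊆ ℂ^d`, `n = |V|`, and all integers `r ≥ 2`. -/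
theorem result : ∀ d : ℕ, 9 ≤ d → ¬ ∃ C : ℝ, ∀ (V : Finset (Fin d → ℂ)) (r : ℕ), 2 ≤ r →
    ((richLines V r).ncard : ℝ) ≤ C * bracket V r :=
  main

end Pool.Agent.Results.MP_0eaff0_co.RichLinesFail
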